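import Pool.Agent.L7h77.FX.Asm
import Pool.Agent.L7h77.FX.Pp
import Pool.Agent.L7h21.FX.Log
import Pool.Agent.L7h21.FX.Dl
import Pool.Agent.L7h21.FX.Mono
import Pool.Agent.L7h46.FX.Cc
import Pool.Agent.L7h46.FX.Si
import Pool.Agent.L7h46.FX.Gl
import Pool.Agent.L7h46.FX.Nf
import Pool.Agent.L7h70.FX.HS
import Pool.Agent.L7h70.FX.POS
import Pool.Agent.W716.FV.Final
import Pool.Agent.W716.FV.NU

/-!
# The dimension-free constant `9/20` in Gromov's filling volume inequality for round spheres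

With helper21, helper46 and helper70; helper41 found the same theorem independently.

As in `OneFifth` (starting tree), let `u_G(R, q) = R |G| cos d(G/|G|, q)` on the cone over the filling
`M` of `S^d`, `n = d + 1`, let `g` be standard Gaussian in `ℝ^n` and `κ` independent with density
`8/(3π) (1+κ²)^(-3)`, and for `η ∈ ℝ^n` let `T_η = E[u_{g+κη} g] - η`,
`S_η = (R²+|η|²)/6 - E[κ u_{g+κη}]`.  New here: for every two points `η₁, η₂`

`⟨T_{η₂} - T_{η₁}, η₂ - η₁⟩ ≤ |η₂ - η₁|² ((S_{η₁} + S_{η₂})/2 - 1)`.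

So `η ↦ T_η` is injective on `{S_η < 1}` and its derivative `A_η - 1` satisfies `A_η ≤ S_η`;
moreover `|A_η|² ≤ (4/3) S_η` for the Hilbert-Schmidt norm.  Hence
`|det (A_η - 1)| ≥ exp(- tr A_η - φ |A_η|²)` for all `η` with `S_η ≤ 22/25`, `φ` depending on `S_η`, and
all depths `S_η ≤ 22/25` are counted (in `OneFifth`: `S_η ≤ 27/200`).
-/

set_option autoImplicit false

open MeasureTheory

namespace Pool.Agent.Results.MP_aeade1_gt.DimensionFreeConstant

open Pool.Agent.H241R3.FV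

/-- For every `d ≥ 1`, every compact triangulated nonshortcutting filling of the round sphere `S^d`,
orientable or not and of any topology, has volume at least `9/20` of the volume
`vol(S^(d+1)) / 2` of the round hemisphere. -/
theorem result (d : ℕ) (hd : 1 ≤ d) (M : Type) [MetricSpace M] [CompactSpace M] (S : Fill d M)
    (hS : S.NonShort) (hT : S.Triangulated) :
    ENNReal.ofReal (9 / 20) *
      ((volume : Measure (EuclideanSpace ℝ (Fin (d + 2)))).toSphere Set.univ / 2) ≤ S.vol := by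
  have hCC := Pool.Agent.L7h46.FX.s_CC Pool.Agent.L7h21.FX.s_LOG
  have hMO := Pool.Agent.L7h21.FX.s_MONO Pool.Agent.W716.FV.pM
  have hPO := Pool.Agent.L7h70.FX.s_POS hMO Pool.Agent.W716.FV.tD
  have hHS := Pool.Agent.L7h70.FX.s_HS Pool.Agent.W716.FV.kM Pool.Agent.W716.FV.gM
    Pool.Agent.W716.FV.pM Pool.Agent.W716.FV.gF Pool.Agent.W716.FV.xI
  have hDL := Pool.Agent.L7h21.FX.s_DL Pool.Agent.L7h21.FX.s_LOG
  have hPP := Pool.Agent.L7h77.FX.s_PP hMO hPO hHS hDL hCC Pool.Agent.W716.FV.tD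
    Pool.Agent.W716.FV.sY Pool.Agent.W716.FV.xI Pool.Agent.W716.FV.aI
  have hGL := Pool.Agent.L7h46.FX.s_GL hCC Pool.Agent.L7h46.FX.s_SI
  have h := Pool.Agent.L7h77.FX.s_FX hCC hPP hGL Pool.Agent.L7h46.FX.s_NF
    Pool.Agent.W716.FV.rC Pool.Agent.W716.FV.aR Pool.Agent.W716.FV.uF Pool.Agent.W716.FV.pF
    Pool.Agent.W716.FV.jA Pool.Agent.W716.FV.nU Pool.Agent.W716.FV.cV d hd M S hS hT
  refine le_trans (le_of_eq ?_) h
  rw [ENNReal.div_eq_inv_mul, ← mul_assoc]
  congr 1
  rw [show (9 / 40 : ℝ) = 9 / 20 * (1 / 2) by norm_num, ENNReal.ofReal_mul (by norm_num)]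
  congr 1
  rw [one_div, ENNReal.ofReal_inv_of_pos (by norm_num)]
  norm_num

end Pool.Agent.Results.MP_aeade1_gt.DimensionFreeConstant
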