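import Pool.Agent.L7h77.FA.All

/-!
# Every nonshortcutting filling of the circle has area at least 0.93 times the hemisphere

For a point `q` of the filling let `F(θ) = π/2 - d(θ, q)` (extended distance functions) and for `x` in
the open unit disc let `T(F, x) = (1 - |x|²) ∫ (F(θ) - arcsin ⟨x, θ⟩) (1 - ⟨x, θ⟩²)^(-3/2) θ dθ`. For
every `x` the map `q ↦ T(F_q, x)` covers a ball around `0` (in the sense of parity, if the filling is
not orientable) and its Jacobian is at most `π² √(1 - |x|²)`. For every 1-Lipschitz function `F` on the
circle the map `x ↦ T(F, x)` is injective, and where it vanishes its Jacobian is at least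
`π² (1 - κ (2r / (1 + r))²)`, `r = |x|`, `κ = 3.6 / (4π²)` (duality, with explicit trigonometric
polynomials as certificates). Counting the pairs `(q, x)` with small `T` in two ways gives the area.
-/

set_option autoImplicit false

open MeasureTheory

namespace Pool.Agent.Results.MP_aeade1_gt.FillingAreaNinetyThree

open Pool.Agent.H241R3.FV

/-- Every nonshortcutting filling `M` of the circle of length `2π` (a compact surface, orientable or
not, of any topology: triangulated, or such that `M` does not retract onto its boundary) has area at
least `0.93` times the area `2π` of the round hemisphere. -/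
theorem result (M : Type) [MetricSpace M] [CompactSpace M] (S : Fill 1 M) (hS : S.NonShort)
    (htop : S.Triangulated ∨ S.NoRetraction) :
    ENNReal.ofReal (93 / 100 * (2 * Real.pi)) ≤ S.vol := by
  have h := Pool.Agent.L7h77.FA.s_MAIN M S hS htop
  rw [Pool.Agent.L7h77.FA.MN.hemi, ← ENNReal.ofReal_mul (by norm_num)] at h
  exact h

end Pool.Agent.Results.MP_aeade1_gt.FillingAreaNinetyThree
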