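import Pool.Agent.L7h64.FB.All
import Pool.Agent.L7h56.FB.U
import Pool.Agent.L7h29.FB.W

/-!
# Every nonshortcutting filling of the 2-sphere has volume at least 0.84 times the hemisphere

For a point `q` of the filling let `F(θ) = π/2 - d(θ, q)` (extended distance functions) and for `x` in
the open unit ball let `T(F, x) = (1 - |x|²) ∫ (F(θ) - arcsin ⟨x, θ⟩) (1 - ⟨x, θ⟩²)⁻² θ dθ`. For
every `x` the map `q ↦ T(F_q, x)` covers a ball around `0` (in the sense of parity, if the filling is
not orientable) and its Jacobian is at most `(4π/3)³ (1 - |x|²)`. For every 1-Lipschitz function `F` on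
the sphere the map `x ↦ T(F, x)` is injective, and where it vanishes its derivative is, in the
coordinates of the hemisphere, a symmetric form with trace `4π` and eigenvalues between
`(4π/3) (1 - 0.398 λ)` and `(4π/3) (1 + λ / 2)`, `λ = 2r / (1 + r)`, `r = |x|` (duality, with explicit
vector fields with quadratic coefficients as certificates), which bounds its determinant from below.
Counting the pairs `(q, x)` with small `T` in two ways gives the volume.
-/

set_option autoImplicit false

open MeasureTheory

namespace Pool.Agent.Results.MP_aeade1_gt.FillingVolumeTwoSphere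

open Pool.Agent.H241R3.FV

/-- Every nonshortcutting filling `M` of the round 2-sphere (orientable or not, of any topology:
triangulated, or such that `M` does not retract onto its boundary) has volume at least `0.84` times
the volume `π²` of the round hemisphere of dimension 3. -/
theorem result (M : Type) [MetricSpace M] [CompactSpace M] (S : Fill 2 M) (hS : S.NonShort)
    (htop : S.Triangulated ∨ S.NoRetraction) :
    ENNReal.ofReal (84 / 100 * Real.pi ^ 2) ≤ S.vol := by
  have h := Pool.Agent.L7h64.FB.main_of (Pool.Agent.L7h56.FB.s_U Pool.Agent.L7h29.FB.s_W) M S hS htop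
  rw [Pool.Agent.L7h77.FB.MN.hemi, ← ENNReal.ofReal_mul (by norm_num)] at h
  exact h

end Pool.Agent.Results.MP_aeade1_gt.FillingVolumeTwoSphere
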