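import Pool.Agent.L7h41.CS.Ext
import Pool.Agent.L7h41.CS.Hopf

/-!
# Filling volume of the round sphere: collars whose slices are split metrics

`Pool.Agent.L7h41.CS.Splitting blk q` is an orthogonal splitting of the tangent spaces of the unit
sphere `S^d`: `q j x v` is the square of the length of the component number `j` of the tangent
vector `v` at `x`; the component number `j` has dimension `#{i | blk i = j}`, and the numbers `q j`
are constant along the great circles.

In the proof the lengths of curves which follow a great circle in a direction of one component only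
are averaged over all such great circles. In the component number `j` the speed is multiplied by the
quotient of the geometric mean of the `d` quadratic means of the coefficients and the quadratic mean
of `A j`. By the inequality of the arithmetic and the geometric mean this covers an angle of at least
`π` for some `j`.
-/

set_option autoImplicit false

open Real Set MeasureTheory Metric
open scoped ENNReal

namespace Pool.Agent.Results.MP_aeade1_gt.SplitSlices

open Pool.Agent.Y499.HC Pool.Agent.Y499.HR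
open Pool.Agent.L7h41.CS (Splitting)

/-- The slices of the metric `m` are `g_s(v) = ∑ j, A j (s, x)² q j (x, v)`, with positive continuous
coefficients `A j` on the collar. -/
structure HasSlices {d : ℕ} {ι : Type} [Fintype ι] (R : ℝ) (m : Met d) (q : ι → E d → E d → ℝ)
    (A : ι → ℝ → E d → ℝ) : Prop where
  cont : ∀ j, ContinuousOn (fun z : ℝ × E d => A j z.1 z.2) (Ico 0 R ×ˢ sphere 0 1)
  pos : ∀ j, ∀ s ∈ Ico 0 R, ∀ x ∈ sphere (0 : E d) 1, 0 < A j s x
  slices : ∀ s ∈ Ico 0 R, ∀ x ∈ sphere (0 : E d) 1, ∀ v : E d, inner ℝ x v = 0 →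
    quad (m.g s x) v = ∑ j, A j s x ^ 2 * q j x v

/-- The metric `m = ds² + g_s` of the collar `[0, R) × S^d` does not shorten the distances of
antipodal points of the boundary, and its slices are split along the splitting `q`. -/
structure SplitCollar {d : ℕ} {ι : Type} [Fintype ι] [DecidableEq ι] (R : ℝ) (m : Met d)
    (blk : Fin d → ι) (q : ι → E d → E d → ℝ) (A : ι → ℝ → E d → ℝ) : Prop where
  two_le : 2 ≤ d
  splitting : Splitting blk q
  width : 0 < R
  good : Good R m
  fermi : Fermi R m
  short : NonShort R m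
  hasSlices : HasSlices R m q A

/-- The coefficients are `A j (s, x) = k j (s) * u (s, x) ^ p j` with `k j`, `u` positive and
continuous and with exponents `0 ≤ p j ≤ (∑ i, p (blk i)) / 2`. -/
def Powers {d : ℕ} {ι : Type} (R : ℝ) (blk : Fin d → ι) (A : ι → ℝ → E d → ℝ) : Prop :=
  ∃ (k : ι → ℝ → ℝ) (u : ℝ → E d → ℝ) (p : ι → ℝ),
    (∀ j, ContinuousOn (k j) (Ico 0 R)) ∧ (∀ j, ∀ s ∈ Ico 0 R, 0 < k j s) ∧
    ContinuousOn (fun z : ℝ × E d => u z.1 z.2) (Ico 0 R ×ˢ sphere 0 1) ∧
    (∀ s ∈ Ico 0 R, ∀ x ∈ sphere (0 : E d) 1, 0 < u s x) ∧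
    (∀ j, 0 ≤ p j ∧ 2 * p j ≤ ∑ i, p (blk i)) ∧
    ∀ j, ∀ s ∈ Ico 0 R, ∀ x ∈ sphere (0 : E d) 1, A j s x = k j s * u s x ^ p j

/-- The quadratic mean of the function `a(s, ·)` over the sphere. -/
noncomputable def mean (d : ℕ) (a : ℝ → E d → ℝ) (s : ℝ) : ℝ := √(⨍ x, a s x ^ 2 ∂(σ d))

/-- `vol(S^d) ∫₀^R ∏ᵢ (mean of A (blk i)²)^(1/2) ds`. -/
noncomputable def energy {d : ℕ} {ι : Type} (R : ℝ) (blk : Fin d → ι) (A : ι → ℝ → E d → ℝ) :
    ℝ≥0∞ :=
  (σ d) univ * ∫⁻ s in Ioo 0 R, ENNReal.ofReal (∏ i, mean d (A (blk i)) s)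

/-- `V` is at least the volume of the collar of width `min R (π/2)` of the hemisphere, with equality
only for `R ≤ π/2` and the round metric. -/
def Sharp {d : ℕ} (R : ℝ) (m : Met d) (V : ℝ≥0∞) : Prop :=
  hemiCollar d (min R (π / 2)) ≤ V ∧
    (V = hemiCollar d (min R (π / 2)) ↔ R ≤ π / 2 ∧ IsRound R m)

/-- `J 0, …, J (r-1)` are anticommuting orthogonal complex structures of `ℝ^(d+1)`. -/
structure IsClifford {d r : ℕ} (J : Fin r → E d → E d) : Prop where
  lin : ∀ i, IsLinearMap ℝ (J i)
  norm : ∀ i x, ‖J i x‖ = ‖x‖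
  sq : ∀ i x, J i (J i x) = -x
  anti : ∀ i j, i ≠ j → ∀ x, J i (J j x) = -J j (J i x)

/-- The component number `some i` is the component in the direction `J i x`, the component number
`none` is the component orthogonal to `J 0 x, …, J (r-1) x`. -/
noncomputable def cliffordPart {d r : ℕ} (J : Fin r → E d → E d) : Option (Fin r) → E d → E d → ℝ
  | some i, x, v => inner ℝ (J i x) v ^ 2
  | none, x, v => ‖v‖ ^ 2 - inner ℝ x v ^ 2 - ∑ i, inner ℝ (J i x) v ^ 2

/-- The dimensions of the components: one for `some i`, and `d - r` for `none`. -/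
def cliffordBlock (d r : ℕ) (i : Fin d) : Option (Fin r) :=
  if h : (i : ℕ) < r then some ⟨i, h⟩ else none

/-- `P 0, …, P k` are anticommuting orthogonal involutions of `ℝ^(d+1)` and the (Hopf) map
`x ↦ (⟪P i x, x⟫)` maps the unit sphere to the unit sphere. -/
structure IsHopf {d k : ℕ} (P : Fin (k + 1) → E d → E d) : Prop where
  lin : ∀ i, IsLinearMap ℝ (P i)
  norm : ∀ i x, ‖P i x‖ = ‖x‖
  sq : ∀ i x, P i (P i x) = x
  anti : ∀ i j, i ≠ j → ∀ x, P i (P j x) = -P j (P i x)
  hopf : ∀ x, ∑ i, (inner ℝ (P i x) x : ℝ) ^ 2 = ‖x‖ ^ 4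

/-- The component number `true` is horizontal, the component number `false` is vertical. -/
noncomputable def hopfPart {d k : ℕ} (P : Fin (k + 1) → E d → E d) : Bool → E d → E d → ℝ
  | true, x, v => ∑ i, inner ℝ (P i x) v ^ 2
  | false, x, v => ‖v‖ ^ 2 - ∑ i, inner ℝ (P i x) v ^ 2

/-- The dimensions of the components: `k` for the horizontal, `d - k` for the vertical. -/
def hopfBlock (d k : ℕ) (i : Fin d) : Bool := decide ((i : ℕ) < k)

lemma mean_eq {d : ℕ} (a : ℝ → E d → ℝ) (s : ℝ) :
    mean d a s = √((∫ x : Sph d, a s x ^ 2 ∂(σ d)) / ((σ d) univ).toReal) := by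
  unfold mean
  rw [average_eq, smul_eq_mul, div_eq_inv_mul]
  rfl

lemma energy_eq {d : ℕ} {ι : Type} (R : ℝ) (blk : Fin d → ι) (A : ι → ℝ → E d → ℝ) :
    energy R blk A = Pool.Agent.L7h41.CS.splitEnergy R blk A := by
  unfold energy Pool.Agent.L7h41.CS.splitEnergy
  simp only [mean_eq]

/-- (1) For collars of arbitrary width `R` with slices split along a splitting, the sharp bound holds
for the energy; (2) if the coefficients are powers, it holds for the volume. (3) Families of
anticommuting orthogonal complex structures define splittings. (4) Hopf maps define splittings. -/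
theorem result :
    (∀ (d : ℕ) (ι : Type) [Fintype ι] [DecidableEq ι] (R : ℝ) (m : Met d) (blk : Fin d → ι)
      (q : ι → E d → E d → ℝ) (A : ι → ℝ → E d → ℝ), SplitCollar R m blk q A →
      Sharp R m (energy R blk A) ∧ (Powers R blk A → Sharp R m (vol R m))) ∧
    (∀ (d r : ℕ) (J : Fin r → E d → E d), IsClifford J →
      Splitting (cliffordBlock d r) (cliffordPart J)) ∧
    (∀ (d k : ℕ) (P : Fin (k + 1) → E d → E d), IsHopf P →
      Splitting (hopfBlock d k) (hopfPart P)) := by
  refine ⟨?_, fun d r J h => ?_, fun d k P h => ?_⟩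
  · intro d ι _ _ R m blk q A h
    have h1 := Pool.Agent.L7h41.CS.main_all h.two_le h.splitting h.width h.good h.fermi h.short
      h.hasSlices.cont h.hasSlices.pos h.hasSlices.slices
    rw [energy_eq]
    refine ⟨h1.1, ?_⟩
    rintro ⟨k, u, p, hk, hk0, hu, hu0, hp, hAe⟩
    exact h1.2 hk hk0 hu hu0 hp hAe
  · set L : Fin r → (E d →ₗᵢ[ℝ] E d) := fun i => ⟨(h.lin i).mk' (J i), fun x => h.norm i x⟩ with hL
    have hLJ : ∀ i x, L i x = J i x := fun i x => rfl
    have hc : Pool.Agent.L7h41.CS.IsClifford L :=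
      ⟨fun i x => by rw [hLJ, hLJ, h.sq], fun i j hij x => by
        rw [hLJ, hLJ, hLJ, hLJ, h.anti i j hij x]⟩
    have h1 := Pool.Agent.L7h41.CS.clifford_splitting hc
    have e : cliffordPart J = Pool.Agent.L7h41.CS.cq L := by
      funext j
      cases j <;> rfl
    rw [e]
    exact h1
  · set L : Fin (k + 1) → (E d →ₗᵢ[ℝ] E d) :=
      fun i => ⟨(h.lin i).mk' (P i), fun x => h.norm i x⟩ with hL
    have hLP : ∀ i x, L i x = P i x := fun i x => rfl
    have hc : Pool.Agent.L7h41.CS.IsHopf L :=
      ⟨fun i x => by rw [hLP, hLP, h.sq], fun i j hij x => by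
        rw [hLP, hLP, hLP, hLP, h.anti i j hij x], fun x => h.hopf x⟩
    have h1 := Pool.Agent.L7h41.CS.hopf_splitting hc
    have e : hopfPart P = Pool.Agent.L7h41.CS.hq L := by
      funext j
      cases j <;> rfl
    rw [e]
    exact h1

end Pool.Agent.Results.MP_aeade1_gt.SplitSlices
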